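import Pool.Agent.Q236.FC.Fld

/-!
# Few large integral points in every class of the 2-descent, uniformly in the curve

Let `f` be an integral polynomial of degree `d` without repeated roots whose coefficients have
absolute value at most `H`, let `g` be a factor of `f` of degree at least three (for instance `g = f`,
if `d ≥ 3`), `K` a number field and `A = K[T] / (g)`. For an integral point `(x, y)` of
`y ^ 2 = f(x)` the class of `x - T` in `A^* / A^*²` is the class of the 2-descent (over `K`).

**Theorem.** For every `d` there is `M`, and for every `n` there is `N`, such that for all `K` of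
degree at most `n`, all `H`, `f`, `g` as above and every unit `δ` of `A` there are at most `N` integers
`x` with `|x| > (2 H) ^ M` for which `δ (x - T)` is a square in `A`.

So the inequality `h(x) ≤ C₁(d) h(f) + C₂(d)` of the problem holds for all integral points of all
curves, except for at most `2 N` points in every class of the 2-descent.

The starting library (`Pool.Agent.Y910.F.frame`, proved with the subspace theorem) bounds the number
of large `x` for which `D (x - T)` is a square in `ℚ[T] / (g)` for a SMALL `D`. Here the class is
arbitrary: the smallest element `x₀` of the class gives `D = x₀ - T`, which is small compared with all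
`x` beyond a power of `x₀`, and the elements between `x₀` and this power are few by a gap principle:
if `(x - T) (x' - T)` is a square in `ℚ[T] / (g)` and the signs of its square roots
`√(x - θ) √(x' - θ)` agree at all roots `θ` of `g`, then `|x'| ≥ x²` or `|x| ≥ x'²` or `x = x'`, because
the divided differences of the square roots at three roots of `g` are algebraic integers all of whose
conjugates are small. The passage from `ℚ` to `K` is a pigeonhole argument with the signs.
-/

set_option autoImplicit false

open Polynomial

namespace Pool.Agent.Results.MP_d88658_nt.FewPointsPerClass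

/-- For every `d` there is `M`, and for every `n` there is `N`, such that for all number fields `K` of
degree at most `n`, all `f` in `ℤ[T]` of degree `d` without repeated roots and with coefficients of
absolute value at most `H`, all factors `g` of `f` of degree at least three and all units `δ` of
`K[T] / (g)` there are at most `N` integers `x` with `|x| > (2 H) ^ M` for which `δ (x - T)` is a
square in `K[T] / (g)`. -/
theorem result (d : ℕ) : ∃ M : ℕ, ∀ n : ℕ, ∃ N : ℕ, ∀ (K : Type) [Field K] [NumberField K],
    Module.finrank ℚ K ≤ n → ∀ (H : ℕ) (f : ℤ[X]), 1 ≤ H → f.natDegree = d →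
    (f.map (Int.castRingHom ℚ)).Separable → (∀ i, |f.coeff i| ≤ H) →
    ∀ g : ℤ[X], g ∣ f → 3 ≤ g.natDegree →
    ∀ δ : AdjoinRoot (g.map (Int.castRingHom K)), IsUnit δ →
      {x : ℤ | (2 * H : ℤ) ^ M < |x| ∧
        IsSquare (δ * AdjoinRoot.mk (g.map (Int.castRingHom K)) (C (x : K) - X))}.encard ≤ N := by
  obtain ⟨M, hM⟩ := Pool.Agent.Q236.FC.fewK d
  refine ⟨M, fun n => ?_⟩
  obtain ⟨N, hN⟩ := hM n
  refine ⟨N, ?_⟩
  intro K _ _ hK H f hH hfd hsep hcoef g hgf hg3 δ hδ
  by_contra hcon
  rw [not_le] at hcon
  obtain ⟨t, ht, htc⟩ := Set.exists_subset_encard_eq (k := ((N + 1 : ℕ) : ℕ∞))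
    (Order.add_one_le_of_lt hcon)
  have htf : t.Finite := Set.finite_of_encard_eq_coe htc
  have h1 := hN K hK H f hH hfd hsep hcoef g hgf hg3 δ hδ htf.toFinset
    (fun x hx => ht (htf.mem_toFinset.1 hx))
  have h2 : (htf.toFinset.card : ℕ∞) = ((N + 1 : ℕ) : ℕ∞) := by
    rw [← htc, htf.encard_eq_coe_toFinset_card]
  have h3 : htf.toFinset.card = N + 1 := by exact_mod_cast h2
  omega

end Pool.Agent.Results.MP_d88658_nt.FewPointsPerClass
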