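import Mathlib
import Pool.Agent.Q194.UG.Int

set_option autoImplicit false

/-!
# The uniform linear height bound for all points of all hyperelliptic curves whose coordinates are
quotients of sums near a group of finite rank

Fix `n`, the number `r` of terms and a finitely generated group `Γ` of algebraic numbers, for instance
the group of all `S`-units of a number field.  There is ONE constant `A` such that for EVERY separable
polynomial `f` with algebraic coefficients, `3 ≤ deg f ≤ n`, and for ALL algebraic `a`, `b`, every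
algebraic point `(x, y)` of `y ^ 2 = f(x)`, of any degree, with

`x = (∑ u_j s_j a_0j) / (∑ u_j s_j a_1j)`,  `y = (∑ v_j t_j b_0j) / (∑ v_j t_j b_1j)`  (`r` terms each),

satisfies `h(1 : x : y) ≤ A (1 + h(f) + h(a) + h(b))`.  Here the `u_j`, `v_j` are any algebraic numbers
with a power in `Γ`, the points `(s_1 : … : s_r)` and `(t_1 : … : t_r)` have height less than `ε`, where
`ε > 0` depends only on `n` and `r`, and all heights are absolute logarithmic heights.

For integral polynomials with coefficients of absolute value at most `H` and integral points `(x, y)` of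
this form this is `log max(|x|, |y|, 1) ≤ A (1 + log H + h(a) + h(b))`, that is
`h(x) ≤ C₁ h(f) + C₂` if `h(a)` and `h(b)` are bounded by a multiple of `1 + log H`.
-/

namespace Pool.Agent.Results.MP_d88658_nt.QuotientHeights

open Pool.Agent.Helper259.AbsHt

/-- The algebraic numbers. -/
abbrev Qbar : Type := AlgebraicClosure ℚ

/-- `x` is the quotient of the sums `∑ u_j s_j a_0j` and `∑ u_j s_j a_1j ≠ 0`, where every `u_j` has a
power in `Γ` and the absolute logarithmic height of the point `(s_1 : … : s_r)` is less than `ε`. -/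
def SparseQuotient {r : ℕ} (Γ : Subgroup Qbarˣ) (ε : ℝ) (a : Fin 2 → Fin r → Qbar) (x : Qbar) :
    Prop :=
  ∃ (u : Fin r → Qbarˣ) (s : Fin r → Qbar), (∀ j, ∃ m : ℕ, 0 < m ∧ u j ^ m ∈ Γ) ∧
    absLogHeight s < ε ∧ ∑ j, (u j : Qbar) * s j * a 1 j ≠ 0 ∧
      x = (∑ j, (u j : Qbar) * s j * a 0 j) / ∑ j, (u j : Qbar) * s j * a 1 j

/-- The height `h(f)`: the absolute logarithmic height of the point with the projective coordinates
`1` and the coefficients of `f`. -/
noncomputable def polyHeight (f : Polynomial Qbar) : ℝ :=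
  absLogHeight (fun o : Option (Fin (f.natDegree + 1)) => o.elim (1 : Qbar) (fun k => f.coeff k))

/-- The height `h(a)` of the point with the `2 r` projective coordinates `a i j`. -/
noncomputable def dataHeight {r : ℕ} (a : Fin 2 → Fin r → Qbar) : ℝ :=
  absLogHeight (fun p : Fin 2 × Fin r => a p.1 p.2)

/-- **Main theorem.** There is `ε > 0` depending on `n` and `r` only and for every finitely generated
group `Γ` of algebraic numbers there is `A` such that (1) all algebraic points `(x, y)` of all curves
`y ^ 2 = f(x)`, `f` separable with algebraic coefficients and `3 ≤ deg f ≤ n`, such that `x` and `y` are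
`SparseQuotient`s for any `a` and `b`, satisfy `h(1 : x : y) ≤ A (1 + h(f) + h(a) + h(b))`; (2) for
integral `f` with coefficients of absolute value at most `H` and integral `x`, `y` this reads
`log max(|x|, |y|, 1) ≤ A (1 + log H + h(a) + h(b))`. -/
theorem result (n r : ℕ) : ∃ ε : ℝ, 0 < ε ∧ ∀ Γ : Subgroup Qbarˣ, Γ.FG → ∃ A : ℝ, 0 ≤ A ∧
    (∀ f : Polynomial Qbar, f.Separable → 3 ≤ f.natDegree → f.natDegree ≤ n →
      ∀ (a b : Fin 2 → Fin r → Qbar) (x y : Qbar), y ^ 2 = f.eval x →
        SparseQuotient Γ ε a x → SparseQuotient Γ ε b y →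
          absLogHeight ![1, x, y] ≤ A * (1 + polyHeight f + dataHeight a + dataHeight b)) ∧
    (∀ f : Polynomial ℤ, (f.map (Int.castRingHom ℚ)).Separable → 3 ≤ f.natDegree →
      f.natDegree ≤ n → ∀ H : ℕ, 1 ≤ H → (∀ i, |f.coeff i| ≤ H) →
        ∀ (a b : Fin 2 → Fin r → Qbar) (x y : ℤ), y ^ 2 = f.eval x →
          SparseQuotient Γ ε a (x : Qbar) → SparseQuotient Γ ε b (y : Qbar) →
            Real.log (max (max |(x : ℝ)| |(y : ℝ)|) 1) ≤
              A * (1 + Real.log H + dataHeight a + dataHeight b)) := by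
  obtain ⟨ε, hε, h⟩ := Pool.Agent.Q194.UG.main n r
  refine ⟨ε, hε, fun Γ hΓ => ?_⟩
  obtain ⟨A, e, hA0, hA⟩ := h Γ hΓ
  have h1 : ∀ f : Polynomial Qbar, f.Separable → 3 ≤ f.natDegree → f.natDegree ≤ n →
      ∀ (a b : Fin 2 → Fin r → Qbar) (x y : Qbar), y ^ 2 = f.eval x →
        SparseQuotient Γ ε a x → SparseQuotient Γ ε b y →
          absLogHeight ![1, x, y] ≤ A * (1 + polyHeight f + dataHeight a + dataHeight b) :=
    fun f hf h3 hn a b x y hxy hx hy => (hA f hf h3 hn a b).1 (x, y) ⟨hxy, hx, hy⟩
  refine ⟨A, hA0, h1, fun f hf h3 hn H hH hfH a b x y hxy hx hy => ?_⟩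
  have h2 := h1 (f.map (Int.castRingHom Qbar)) (Pool.Agent.Q194.UG.sep_int f hf)
    (by rw [Pool.Agent.Q194.UG.deg_int]; exact h3) (by rw [Pool.Agent.Q194.UG.deg_int]; exact hn)
    a b x y (Pool.Agent.Q194.UG.eval_int f x y hxy) hx hy
  have h3 : polyHeight (f.map (Int.castRingHom Qbar)) ≤ Real.log H :=
    Pool.Agent.Q194.UG.hP_int f H hH hfH
  refine (Pool.Agent.Q194.UG.log_le_height x y).trans (h2.trans ?_)
  exact mul_le_mul_of_nonneg_left (by linarith) hA0

end Pool.Agent.Results.MP_d88658_nt.QuotientHeights
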