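import Pool.Agent.Q183.UH.Size2

/-!
# A uniform height bound for the integral points of `y ^ 2 = f(x)` in recurrent sequences

For all `n`, `r` and `d` there are numbers `M ≥ 1` and `c` with the following property.  Let `f` be
any polynomial with integer coefficients of degree between `3` and `n` and nonzero discriminant.  Let
`(x t, y t)`, `0 ≤ t < l ≤ ∞`, be a finite or infinite sequence of integral points of the curve
`y ^ 2 = f(x)` such that `x` and `y` satisfy, from an index `s` on, linear recurrences of order at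
most `r` whose coefficients are polynomials in the index of degree at most `d` with integer
coefficients of absolute value at most `H`, the first and the last of which do not vanish at the
indices at least `s`.  Let `|x t|, |y t| ≤ B` for `t < s + r`.  Then

(i) `(x (t + M), y (t + M)) = (x t, y t)` for all `t` with `s + c ≤ t ≤ l - M - c`;

(ii) `h(x t), h(y t) ≤ log B + c (log H + d log (s + 1) + 1)` for all `t ≤ l - c`;

(iii) `h(x t), h(y t) ≤ log B + c (log H + d log (s + t + 1) + 1)` for all `t < l`.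

The constants do not depend on `f`.
-/

set_option autoImplicit false

namespace Pool.Agent.Results.MP_d88658_nt.RecurrentHeightBound

open Polynomial

/-- The logarithmic height of an integer. -/
noncomputable def height (a : ℤ) : ℝ := Real.log (max |(a : ℝ)| 1)

/-- The sequence `x` of length `l ≤ ∞` satisfies, from the index `s` on, a linear recurrence of order
at most `r` whose coefficients are polynomials in the index of degree at most `d` with integer
coefficients of absolute value at most `H`, the first and the last of which do not vanish at the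
indices at least `s`. -/
def Recurrent (r d H s : ℕ) (l : ℕ∞) (x : ℕ → ℤ) : Prop :=
  ∃ (q : ℕ) (a : ℕ → ℤ[X]), q ≤ r ∧ (∀ k, (a k).natDegree ≤ d ∧ ∀ i, |(a k).coeff i| ≤ H) ∧
    ∀ m : ℕ, s ≤ m → ((m + q : ℕ) : ℕ∞) < l →
      (a 0).eval (m : ℤ) ≠ 0 ∧ (a q).eval (m : ℤ) ≠ 0 ∧
      ∑ k ∈ Finset.range (q + 1), (a k).eval (m : ℤ) * x (m + k) = 0

open Pool.Agent.Q183.UH

theorem Recurrent.sRec {r d H s : ℕ} {l : ℕ∞} {x : ℕ → ℤ} (h : Recurrent r d H s l x) :
    SRec r d H s l fun m => (x m : ℂ) := by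
  obtain ⟨q, a, hq, hA, ha⟩ := h
  refine ⟨q, a, hq, hA, fun m hm hml => ⟨(ha m hm hml).1, (ha m hm hml).2.1, ?_⟩⟩
  change ∑ k ∈ Finset.range (q + 1), (((a k).eval (m : ℤ) : ℤ) : ℂ) * ((x (m + k) : ℤ) : ℂ) = 0
  exact_mod_cast congrArg (Int.cast : ℤ → ℂ) (ha m hm hml).2.2

theorem height_le {c H d B : ℕ} {u : ℝ} (hc : 0 < c) (hH : 1 ≤ H) (hB : 1 ≤ B) (hu : 0 ≤ u)
    {a : ℤ} (ha : ‖(a : ℂ)‖ ≤ ((c : ℝ) * (H * (u + 1) ^ d)) ^ c * B) :
    height a ≤ Real.log B + (c * c : ℕ) * (Real.log H + d * Real.log (u + 1) + 1) := by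
  have hc1 : (1 : ℝ) ≤ c := by exact_mod_cast hc
  have hH1 : (1 : ℝ) ≤ H := by exact_mod_cast hH
  have hB1 : (1 : ℝ) ≤ B := by exact_mod_cast hB
  have hu1 : (1 : ℝ) ≤ (u + 1) ^ d := one_le_pow₀ (by linarith)
  have hQ : (1 : ℝ) ≤ c * (H * (u + 1) ^ d) :=
    one_le_mul_of_one_le_of_one_le hc1 (one_le_mul_of_one_le_of_one_le hH1 hu1)
  have hQ2 : (1 : ℝ) ≤ ((c : ℝ) * (H * (u + 1) ^ d)) ^ c * B :=
    one_le_mul_of_one_le_of_one_le (one_le_pow₀ hQ) hB1
  rw [Complex.norm_intCast] at ha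
  have h1 : max |(a : ℝ)| 1 ≤ ((c : ℝ) * (H * (u + 1) ^ d)) ^ c * B := max_le ha hQ2
  have h2 : height a ≤ Real.log (((c : ℝ) * (H * (u + 1) ^ d)) ^ c * B) :=
    Real.log_le_log (by positivity) h1
  refine h2.trans ?_
  rw [Real.log_mul (by positivity) (by positivity), Real.log_pow,
    Real.log_mul (by positivity) (by positivity), Real.log_mul (by positivity) (by positivity),
    Real.log_pow]
  have h3 : Real.log c ≤ c := (Real.log_le_sub_one_of_pos (by linarith)).trans (by linarith)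
  have h4 : 0 ≤ Real.log H := Real.log_nonneg hH1
  have h5 : 0 ≤ (d : ℝ) * Real.log (u + 1) := mul_nonneg (by positivity)
    (Real.log_nonneg (by linarith))
  push_cast
  nlinarith [mul_nonneg (sub_nonneg.2 hc1) (add_nonneg h4 h5)]

theorem result (n r d : ℕ) : ∃ M c : ℕ, 0 < M ∧ ∀ (f : ℤ[X]), 3 ≤ f.natDegree →
    f.natDegree ≤ n → (f.map (Int.castRingHom ℚ)).Separable → ∀ (H B s : ℕ), 1 ≤ H → 1 ≤ B →
    ∀ (l : ℕ∞) (x y : ℕ → ℤ), (∀ t : ℕ, (t : ℕ∞) < l → y t ^ 2 = f.eval (x t)) →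
    Recurrent r d H s l x → Recurrent r d H s l y →
    (∀ t : ℕ, t < s + r → (t : ℕ∞) < l → |x t| ≤ B ∧ |y t| ≤ B) →
    (∀ t : ℕ, s + c ≤ t → ((t + M + c : ℕ) : ℕ∞) ≤ l → x (t + M) = x t ∧ y (t + M) = y t) ∧
    (∀ t : ℕ, ((t + c : ℕ) : ℕ∞) ≤ l →
      height (x t) ≤ Real.log B + c * (Real.log H + d * Real.log (s + 1) + 1) ∧
      height (y t) ≤ Real.log B + c * (Real.log H + d * Real.log (s + 1) + 1)) ∧
    ∀ t : ℕ, (t : ℕ∞) < l →
      height (x t) ≤ Real.log B + c * (Real.log H + d * Real.log (s + t + 1) + 1) ∧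
      height (y t) ≤ Real.log B + c * (Real.log H + d * Real.log (s + t + 1) + 1) := by
  obtain ⟨M, c, hM, hc, h⟩ := plane_size2 (n + 1) r d
  refine ⟨M, c * c, hM, fun f h3 hn hsep H B s hH hB l x y hX hx hy hin => ?_⟩
  have hcc : c ≤ c * c := Nat.le_mul_self c
  let g : ℂ[X] := f.map (Int.castRingHom ℂ)
  have hg : g.Separable := by
    have h1 := hsep.map (f := (algebraMap ℚ ℂ))
    rw [Polynomial.map_map] at h1
    have h2 : (algebraMap ℚ ℂ).comp (Int.castRingHom ℚ) = Int.castRingHom ℂ :=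
      RingHom.ext_int _ _
    rwa [h2] at h1
  have hgd : g.natDegree = f.natDegree :=
    natDegree_map_eq_of_injective (RingHom.injective_int (Int.castRingHom ℂ)) f
  have key := h (MvPolynomial.X 1 ^ 2 -
    Polynomial.aeval (MvPolynomial.X 0 : MvPolynomial (Fin 2) ℂ) g) (hyp_deg (by omega) (by omega))
    (hyp_ratIn hg (by omega) (by omega) ℂ) H s hH B (by positivity) l (fun t => (x t : ℂ))
    (fun t => (y t : ℂ)) (fun t ht => by
      rw [aeval_hyp, sub_eq_zero]
      have h1 := congrArg (Int.cast : ℤ → ℂ) (hX t ht)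
      rw [Int.cast_pow] at h1
      rw [h1, Polynomial.coe_aeval_eq_eval]
      exact (Polynomial.eval_intCast_map (Int.castRingHom ℂ) f (x t)).symm) hx.sRec hy.sRec (fun t h1 h2 => by
      rw [Complex.norm_intCast, Complex.norm_intCast]
      exact ⟨by exact_mod_cast (hin t h1 h2).1, by exact_mod_cast (hin t h1 h2).2⟩)
  obtain ⟨k1, k2, k3⟩ := key
  refine ⟨fun t h1 h2 => ?_, fun t ht => ?_, fun t ht => ?_⟩
  · obtain ⟨e1, e2⟩ := k1 t (by omega) (le_trans (by
      exact_mod_cast (by omega : t + M + c ≤ t + M + c * c)) h2)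
    exact ⟨by exact_mod_cast e1, by exact_mod_cast e2⟩
  · obtain ⟨e1, e2⟩ := k2 t (le_trans (by exact_mod_cast (by omega : t + c ≤ t + c * c)) ht)
    exact ⟨height_le hc hH hB (by positivity) e1, height_le hc hH hB (by positivity) e2⟩
  · obtain ⟨e1, e2⟩ := k3 t ht
    exact ⟨height_le hc hH hB (by positivity) e1, height_le hc hH hB (by positivity) e2⟩

end Pool.Agent.Results.MP_d88658_nt.RecurrentHeightBound
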