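import Mathlib
import Pool.Agent.Q29.TW.IntRes

/-!
# Integral points with few digits on the curves `y² = d(t) f(x)`

Let `f` be an integral polynomial of degree `n ≥ 3` without repeated roots, `d` an integral
polynomial of positive degree without repeated roots and `t` an integer. The hyperelliptic
polynomial `F = d(t) f` has coefficients of size up to `H |d(t)|`, if those of `f` have absolute
value at most `H`. We show that every integral point `(x, y)` of `y² = F(x)` with few digits in
base `t` satisfies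

  `|x| ^ (n - 2) ≤ |d(t)|`,

so `h(x) ≤ h(F) / (n - 2)`, if `t` is larger than a power of `H N`; moreover `y = 0` if
`deg d < n`. Here a point with few digits means that

  `(x, y) = ∑_{l ≤ r} v_l t^(m_l) ∏_i F_i(t)^(e_il)`

with vectors `v_l` of two integers of absolute value at most `H`, arbitrary exponents `m_l`, any
number of integral polynomials `F_i` of total degree at most `D` with constant term `1` or `-1` and
coefficients of absolute value at most `H`, and `∑_i e_il ≤ N` for all `l`.
-/

set_option autoImplicit false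

namespace Pool.Agent.Results.MP_d88658_nt.TwistsWithFewDigits

open Polynomial

/-- Pairs `p` of polynomials of the form `p = ∑ v_l X^(m_l) ∏_i F_i^(e_il)`, `r` terms, where the
`v_l` are pairs of integers of absolute value at most `H`, the exponents `m_l` are arbitrary, the
`F_i` (any number of them) are integral polynomials of total degree at most `D`, with coefficients
of absolute value at most `H` and constant terms `1` or `-1`, and `∑_i e_il ≤ N` for each `l`. -/
def PowerPair (r D N H : ℕ) (p : Fin 2 → ℤ[X]) : Prop :=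
  ∃ (q : ℕ) (F : Fin q → ℤ[X]) (m : Fin r → ℕ) (e : Fin r → Fin q → ℕ) (v : Fin r → Fin 2 → ℤ),
    ∑ i, (F i).natDegree ≤ D ∧ (∀ i, |(F i).coeff 0| = 1) ∧ (∀ i j, |(F i).coeff j| ≤ H) ∧
    (∀ l, ∑ i, e l i ≤ N) ∧ (∀ l i, |v l i| ≤ H) ∧
    ∀ i, p i = ∑ l, C (v l i) * (X ^ m l * ∏ j, F j ^ e l j)

/-- The pair of integers `(x, y)` is the value at `t` of a pair of polynomials as above. -/
def FewDigits (t : ℤ) (r D N H : ℕ) (x y : ℤ) : Prop :=
  ∃ p : Fin 2 → ℤ[X], PowerPair r D N H p ∧ (p 0).eval t = x ∧ (p 1).eval t = y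

theorem result (n r D D' : ℕ) (hn : 3 ≤ n) : ∃ C : ℕ, ∀ (H N : ℕ) (t : ℤ), 1 ≤ H → 1 ≤ N →
    (((C * (H * N)) ^ C : ℕ) : ℤ) ≤ |t| → ∀ f d : ℤ[X], f.natDegree = n →
    (f.map (Int.castRingHom ℚ)).Separable → Squarefree (d.map (Int.castRingHom ℚ)) →
    1 ≤ d.natDegree → d.natDegree ≤ D' → (∀ i, |f.coeff i| ≤ H) → (∀ i, |d.coeff i| ≤ H) →
    ∀ x y : ℤ, FewDigits t r D N H x y → y ^ 2 = d.eval t * f.eval x →
      |x| ^ (n - 2) ≤ |d.eval t| ∧ (d.natDegree < n → y = 0) := by
  obtain ⟨C, hC⟩ := Pool.Agent.Q29.TW.int_res2 n r D D' hn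
  refine ⟨C, ?_⟩
  rintro H N t hH hN ht f d hf hs hd h1 h2 hfH hdH x y ⟨p, hp, rfl, rfl⟩ hxy
  exact hC H N t hH hN ht f d hf hs hd h1 h2 hfH hdH p hp hxy

end Pool.Agent.Results.MP_d88658_nt.TwistsWithFewDigits
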